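import Mathlib
import Pool.Agent.P.MP_bde484_co.Star3

/-!
The bound `γ_d^p(T) ≤ (n - 2√n + d + 1) / d` fails for every pair `3 ≤ p ≤ d`.
-/

namespace Pool.Agent.Results.MP_bde484_co.BoundFailsAll

open Pool.Agent.P.MP_bde484_co

/-- `X` is a `d`-distance dominating set of `G`. -/
def IsDistDominating {V : Type} (G : SimpleGraph V) (d : ℕ) (X : Finset V) : Prop :=
  ∀ u, u ∉ X → ∃ x ∈ X, G.edist u x ≤ (d : ℕ∞)

/-- `X` is a `p`-packing of `G`. -/
def IsPacking {V : Type} (G : SimpleGraph V) (p : ℕ) (X : Finset V) : Prop :=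
  ∀ u ∈ X, ∀ v ∈ X, u ≠ v → (p : ℕ∞) + 1 ≤ G.edist u v

/-- The `d`-distance `p`-packing domination number, `⊤` if no such set exists. -/
noncomputable def gamma {V : Type} (G : SimpleGraph V) (d p : ℕ) : ℕ∞ :=
  sInf {c : ℕ∞ | ∃ X : Finset V, IsDistDominating G d X ∧ IsPacking G p X ∧ c = (X.card : ℕ∞)}

theorem result (p d : ℕ) (hp : 3 ≤ p) (hpd : p ≤ d) :
    ∃ (V : Type) (_ : Fintype V) (T : SimpleGraph V), T.IsTree ∧
      ∃ g : ℕ, gamma T d p = (g : ℕ∞) ∧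
        ((Fintype.card V : ℝ) - 2 * Real.sqrt (Fintype.card V : ℝ) + d + 1) / d < (g : ℝ) := by
  obtain ⟨m, rfl⟩ : ∃ m, d = m + 1 := ⟨d - 1, by omega⟩
  have hm : 0 < m := by omega
  set k := 2 * (m + 1) with hk
  refine ⟨TV k m, inferInstance, parGraph tpar, star_isTree, ?_⟩
  set S := {c : ℕ∞ | ∃ X : Finset (TV k m), IsDistDominating (parGraph tpar) (m + 1) X ∧
    IsPacking (parGraph tpar) p X ∧ c = (X.card : ℕ∞)} with hS
  have hne : S.Nonempty := by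
    obtain ⟨X, h1, h2⟩ := exists_dom_pack (parGraph (tpar : TV k m → TV k m)) p
    refine ⟨X.card, X, fun u hu => ?_, h2, rfl⟩
    obtain ⟨x, hx, hd⟩ := h1 u hu
    exact ⟨x, hx, hd.trans (by exact_mod_cast hpd)⟩
  obtain ⟨X, hdom, hpack, hX⟩ := csInf_mem hne
  refine ⟨X.card, hX, ?_⟩
  have hlow := star_lower hm X hdom (fun u hu v hv huv => by
    refine le_trans ?_ (hpack u hu v hv huv)
    have : (3 : ℕ∞) ≤ p := by exact_mod_cast hp
    exact add_le_add_left this 1)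
  have hlowR : 4 * ((m : ℝ) + 1) + 1 ≤ X.card := by
    have h0 : 4 * (m + 1) + 1 ≤ X.card := by omega
    exact_mod_cast h0
  have hn : (Fintype.card (TV k m) : ℝ) = 4 * ((m : ℝ) + 1) ^ 2 + 4 * (m + 1) := by
    rw [card_TV, hk]
    push_cast
    ring
  have hm0 : (0 : ℝ) ≤ m := Nat.cast_nonneg _
  have hs : 2 * ((m : ℝ) + 1) + 1 / 2 < Real.sqrt (Fintype.card (TV k m) : ℝ) := by
    refine Real.lt_sqrt_of_sq_lt ?_
    rw [hn]
    nlinarith
  have hd : (0 : ℝ) < ((m + 1 : ℕ) : ℝ) := by positivity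
  rw [div_lt_iff₀ hd]
  have h1 := mul_le_mul_of_nonneg_right hlowR hd.le
  generalize Real.sqrt (Fintype.card (TV k m) : ℝ) = q at hs
  rw [hn]
  push_cast at h1 ⊢
  nlinarith

end Pool.Agent.Results.MP_bde484_co.BoundFailsAll
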